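import Pool.Agent.MP_1dc7bd_an.H35.Sub

set_option autoImplicit false

open Topology MeasureTheory
open Pool.Agent.MP_1dc7bd_an Pool.Agent.MP_1dc7bd_an.H35

namespace Pool.Agent.Results.MP_1dc7bd_an.InducedNotRigid

/-- A minimal, uniquely ergodic Cantor system that is rigid, with a clopen set whose itinerary separates points
and whose first return map is rigid in neither sense. -/
theorem result :
    ∃ (X : Type) (_ : TopologicalSpace X) (_ : CompactSpace X) (_ : TopologicalSpace.MetrizableSpace X)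
      (_ : TotallyDisconnectedSpace X) (_ : Nonempty X) (_ : MeasurableSpace X) (_ : BorelSpace X)
      (T : X ≃ₜ X) (μ : Measure X) (A : Set X) (TA : A → A),
      (∀ x : X, (𝓝[≠] x).NeBot) ∧
      (∀ x : X, Dense (Set.range fun n : ℕ => (⇑T)^[n] x)) ∧
      IsProbabilityMeasure μ ∧ Ergodic (⇑T) μ ∧
      (∀ ν : Measure X, IsProbabilityMeasure ν → MeasurePreserving (⇑T) ν ν → ν = μ) ∧
      IsClopen A ∧ 0 < μ A ∧
      (∀ x y : X, (∀ n : ℕ, ((⇑T)^[n] x ∈ A ↔ (⇑T)^[n] y ∈ A) ∧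
        ((⇑T.symm)^[n] x ∈ A ↔ (⇑T.symm)^[n] y ∈ A)) → x = y) ∧
      (∀ x : A, ∃ r : ℕ, IsLeast {n : ℕ | 1 ≤ n ∧ (⇑T)^[n] x ∈ A} r ∧ (TA x : X) = (⇑T)^[r] x) ∧
      IsRigid (⇑T) μ ∧ IsPartiallyRigid (⇑T) μ ∧
      ¬ IsRigid TA (normalised μ A) ∧ ¬ IsPartiallyRigid TA (normalised μ A) :=
  ⟨tp.X, inferInstance, inferInstance, inferInstance, inferInstance, ⟨tp.pr 0⟩, inferInstance,
    inferInstance, tp.T, tp.mu, tp.A, TA tp, tp.neBot, tp.dense_orbit, inferInstance, ergodic_T tp,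
    fun ν _ h => unique_inv tp ν h, tp.isClopen_A, pos_iff_ne_zero.2 tp.mu_A_ne, separates,
    TA_spec tp, isRigid_T tp, isWeak_T tp, not_strong_TA, not_weak_TA⟩

end Pool.Agent.Results.MP_1dc7bd_an.InducedNotRigid
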